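import Mathlib

namespace Pool.Agent.Results.MP_f34218_co.NoSmallTrade

open Matrix Finset

/-- Complex Hadamard matrix of order `n`: unimodular entries and `H Hᴴ = n I`. -/
def IsCH {n : ℕ} (H : Matrix (Fin n) (Fin n) ℂ) : Prop :=
  (∀ i j, ‖H i j‖ = 1) ∧ H * Hᴴ = (n : ℂ) • (1 : Matrix (Fin n) (Fin n) ℂ)

/-- `T` is a trade in `H`: some complex Hadamard `H' ≠ H` differs from `H` exactly on `T`. -/
def IsTrade {n : ℕ} (H : Matrix (Fin n) (Fin n) ℂ) (T : Finset (Fin n × Fin n)) : Prop :=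
  ∃ H' : Matrix (Fin n) (Fin n) ℂ, IsCH H' ∧ H' ≠ H ∧
    (∀ p ∈ T, H' p.1 p.2 ≠ H p.1 p.2) ∧ ∀ p ∉ T, H' p.1 p.2 = H p.1 p.2

lemma supp_bound {n : ℕ} (H : Matrix (Fin n) (Fin n) ℂ) (hH : IsCH H) (A : Finset (Fin n))
    (c : Fin n → ℂ) (hc : ∀ i ∉ A, c i = 0) (S : Finset (Fin n))
    (hS : ∀ k ∉ S, (c ᵥ* H) k = 0) (hne : c ᵥ* H ≠ 0) : n ≤ A.card * S.card := by
  have hc0 : c ≠ 0 := by rintro rfl; simp at hne
  have hpos : 0 < ∑ i, ‖c i‖ ^ 2 := by
    obtain ⟨i, hi⟩ := Function.ne_iff.1 hc0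
    exact Finset.sum_pos' (fun _ _ => by positivity)
      ⟨i, mem_univ _, pow_pos (norm_pos_iff.2 hi) 2⟩
  have h1 : ∑ k, ‖(c ᵥ* H) k‖ ^ 2 = n * ∑ i, ‖c i‖ ^ 2 := by
    have e1 : (c ᵥ* H) ⬝ᵥ star (c ᵥ* H) = (n : ℂ) * (c ⬝ᵥ star c) := by
      rw [star_vecMul, dotProduct_mulVec, vecMul_vecMul, hH.2]
      simp [vecMul_smul, smul_dotProduct]
    have e2 : ∀ v : Fin n → ℂ, v ⬝ᵥ star v = ((∑ i, ‖v i‖ ^ 2 : ℝ) : ℂ) := by
      intro v
      simp [dotProduct, Complex.mul_conj, Complex.normSq_eq_norm_sq]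
    rw [e2, e2] at e1
    exact_mod_cast e1
  have h2 : ∀ k, ‖(c ᵥ* H) k‖ ^ 2 ≤ A.card * ∑ i, ‖c i‖ ^ 2 := by
    intro k
    have a1 : ‖(c ᵥ* H) k‖ ≤ ∑ i ∈ A, ‖c i‖ := by
      have : (c ᵥ* H) k = ∑ i ∈ A, c i * H i k := by
        simp only [vecMul, dotProduct]
        symm
        apply Finset.sum_subset (subset_univ _)
        intro i _ hi
        simp [hc i hi]
      rw [this]
      refine (norm_sum_le _ _).trans (le_of_eq ?_)
      simp [hH.1]
    have a2 : (∑ i ∈ A, ‖c i‖) ^ 2 ≤ A.card * ∑ i ∈ A, ‖c i‖ ^ 2 := sq_sum_le_card_mul_sum_sq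
    have a3 : ∑ i ∈ A, ‖c i‖ ^ 2 ≤ ∑ i, ‖c i‖ ^ 2 :=
      Finset.sum_le_sum_of_subset_of_nonneg (subset_univ _) (fun _ _ _ => by positivity)
    calc ‖(c ᵥ* H) k‖ ^ 2 ≤ (∑ i ∈ A, ‖c i‖) ^ 2 := by gcongr
      _ ≤ _ := a2
      _ ≤ _ := by gcongr
  have h3 : ∑ k, ‖(c ᵥ* H) k‖ ^ 2 ≤ S.card * (A.card * ∑ i, ‖c i‖ ^ 2) := by
    have : ∑ k, ‖(c ᵥ* H) k‖ ^ 2 = ∑ k ∈ S, ‖(c ᵥ* H) k‖ ^ 2 := by
      symm
      apply Finset.sum_subset (subset_univ _)
      intro k _ hk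
      simp [hS k hk]
    rw [this]
    simpa using Finset.sum_le_card_nsmul S _ _ (fun k _ => h2 k)
  have h4 : (n : ℝ) ≤ A.card * S.card := by
    rw [h1] at h3
    have : (n : ℝ) * ∑ i, ‖c i‖ ^ 2 ≤ (A.card * S.card) * ∑ i, ‖c i‖ ^ 2 := by linarith
    exact le_of_mul_le_mul_right this hpos
  exact_mod_cast h4

theorem result (n : ℕ) (H : Matrix (Fin n) (Fin n) ℂ) (hH : IsCH H)
    (T : Finset (Fin n × Fin n)) (hT : IsTrade H T) : n ≤ T.card := by
  classical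
  obtain ⟨H', hH', hne, -, hout⟩ := hT
  rcases Nat.eq_zero_or_pos n with rfl | hn
  · simp
  have hn' : (n : ℂ) ≠ 0 := by exact_mod_cast hn.ne'
  set A : Finset (Fin n) := univ.filter (fun i => H' i ≠ H i) with hA
  have hApos : 0 < A.card := by
    rw [Finset.card_pos]
    obtain ⟨i, hi⟩ := Function.ne_iff.1 hne
    exact ⟨i, by simpa [hA] using hi⟩
  have hHH : Hᴴ * H = (n : ℂ) • (1 : Matrix (Fin n) (Fin n) ℂ) := by
    have : ((n : ℂ)⁻¹ • H) * Hᴴ = 1 := by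
      rw [smul_mul_assoc, hH.2, smul_smul, inv_mul_cancel₀ hn', one_smul]
    have h2 := mul_eq_one_comm.1 this
    rw [mul_smul_comm] at h2
    rw [← h2, smul_smul, mul_inv_cancel₀ hn', one_smul]
  have row : ∀ j ∈ A, n ≤ A.card * (T.filter (fun p => p.1 = j)).card := by
    intro j hj
    let c : Fin n → ℂ := fun i => (n : ℂ)⁻¹ * ((H' * Hᴴ) j i - (H * Hᴴ) j i)
    have hcH : c ᵥ* H = H' j - H j := by
      have e : ((n : ℂ)⁻¹ • (H' * Hᴴ - H * Hᴴ)) * H = H' - H := by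
        rw [smul_mul_assoc, ← sub_mul, Matrix.mul_assoc, hHH, mul_smul_comm, smul_smul,
          inv_mul_cancel₀ hn', one_smul, mul_one]
      funext k
      have := congrFun (congrFun e j) k
      simpa [c, Matrix.mul_apply, vecMul, dotProduct] using this
    have hc : ∀ i ∉ A, c i = 0 := by
      intro i hi
      have hi' : H' i = H i := by simpa [hA] using hi
      have : (H' * Hᴴ) j i = (H' * H'ᴴ) j i := by
        simp [Matrix.mul_apply, conjTranspose_apply, hi']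
      simp only [c]
      rw [this, hH'.2, hH.2, sub_self, mul_zero]
    have hb := supp_bound H hH A c hc ((T.filter (fun p => p.1 = j)).image Prod.snd)
      (by
        intro k hk
        rw [hcH]
        have : (j, k) ∉ T := fun h => hk (mem_image.2 ⟨(j, k), by simp [h], rfl⟩)
        simpa [sub_eq_zero] using hout _ this)
      (by rw [hcH, sub_ne_zero]; simpa [hA] using hj)
    exact hb.trans (Nat.mul_le_mul_left _ card_image_le)
  have hsum : ∑ j ∈ A, (T.filter (fun p => p.1 = j)).card ≤ T.card := by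
    rw [Finset.card_eq_sum_card_fiberwise (f := Prod.fst) (s := T) (t := univ)
      (fun _ _ => by simp)]
    exact Finset.sum_le_sum_of_subset (subset_univ _)
  have h5 : A.card * n ≤ A.card * T.card := by
    calc A.card * n = ∑ _j ∈ A, n := by simp
      _ ≤ ∑ j ∈ A, A.card * (T.filter (fun p => p.1 = j)).card := Finset.sum_le_sum row
      _ = A.card * ∑ j ∈ A, (T.filter (fun p => p.1 = j)).card := by rw [Finset.mul_sum]
      _ ≤ _ := Nat.mul_le_mul_left _ hsum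
  exact Nat.le_of_mul_le_mul_left h5 hApos

end Pool.Agent.Results.MP_f34218_co.NoSmallTrade
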